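import Pool.Agent.Helper57.THA.Step
import Pool.Agent.Helper14.THA.TypF
import Pool.Agent.Helper16.THA.OutU
import Pool.Agent.Helper47.THA.ZFU

/-! THEOREM A for corners. -/

set_option autoImplicit false

namespace Pool.Agent.Helper57.THA

open Pool.Agent.Helper13.AM

/-- THEOREM A for corners, from the row ZFU -/
theorem tha_of (hZFU : ST_ZFU) : ST_THA :=
  tha hZFU Pool.Agent.Helper14.THA.st_typ Pool.Agent.Helper16.THA.st_OUTU

/-- THEOREM A for corners -/
theorem st_tha : ST_THA := tha_of Pool.Agent.Helper47.THA.st_ZFU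

end Pool.Agent.Helper57.THA
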