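import Pool.Agent.Helper57.THA.St
import Pool.Agent.Helper57.TA.TrL
import Pool.Agent.Helper92.WK.Dcn
import Pool.Agent.Helper96.UQR.Cor
import Pool.Agent.Helper46.THA.Uniq
import Pool.Agent.Helper14.WLK.Far
import Pool.Agent.Helper45.UC.Star

/-! THEOREM A for corners: from the transports of the types to walks and transports of one step. -/

set_option autoImplicit false
set_option linter.unusedVariables false

namespace Pool.Agent.Helper57.THA

open Finset Filter Topology Pool.Agent.Helper69.RK Pool.Agent.Helper31.EC Pool.Agent.Helper31.EC.Sp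
open Pool.Agent.Helper31.EC.QS Pool.Agent.Helper57.TA Pool.Agent.Helper13.AM
open Pool.Agent.Helper79.WLK (LB LR sh EdgD edgD_of_tr)
open Pool.Agent.Helper79.HLD (vd_sume)
open Pool.Agent.Helper14.WLK (Ag LG CS exists_lvar)
open Pool.Agent.Helper92.WK (WI)

noncomputable section

/-! ### two independent points of one curve -/

theorem two_pts {S : Sp} {al : ℕ → Type} {bV : ∀ k, (S.F k).Ω → al k} (hbV : Bdd bV) {ν : Type} [Fintype ν]
    (f : ν → QS S) (t : QS S) (ht : h (dg t 1) (io bV ⊔ vd f 1) = 1) :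
    ∃ (γ : ℕ → Type) (U : ∀ k, (S.F k).Ω → γ k) (W : Sp) (P P' : Pj W S), Bdd U ∧ io U = io bV ⊔ vd f 1 ∧ Ag U P P' ∧
      Ag bV P P' ∧ (∀ a, P.qs (f a) = P'.qs (f a)) ∧ (∀ x y, I (P.map x) (P'.map y) (P.map (io U)) = 0) ∧
      ∀ Y, h (dg (P'.qs t) 1) (P.map Y) = 1 := by
  obtain ⟨γ, U, hU, hio, ⟨e, he⟩, hf⟩ := exists_lvar hbV f
  obtain ⟨C⟩ := Cps.exists U hU 1
  have hA := Pool.Agent.Helper14.WLK.Cps_Ag C 0 1
  refine ⟨γ, U, C.W, C.p 0, C.p 1, hU, hio, hA, hA.fn e he, hf _ _ _ hA, fun x y => ?_, fun Y => ?_⟩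
  · have h3 := Pool.Agent.Helper14.WLK.I_block C (s := {0}) (t := {1}) (by simp) (fun i => if i = 0 then x else y)
      (fun i => if i = 0 then x else y)
    rw [Finset.sup_singleton, Finset.sup_singleton, if_pos rfl, if_neg (by decide)] at h3
    exact h3
  · have h1 := Pool.Agent.Helper14.WLK.cps_new C (y := dg t 1) (K := Y ⊔ io U) le_sup_right
    rw [← Pj.qs_dg, hio, ht] at h1
    exact le_antisymm (h_dg_le_one _ _) (h1.ge.trans (h_anti (Pj.map_mono _ le_sup_left)))

/-- a variable which is full over everything is independent of everything -/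
theorem full_ind {W : Sp} {τ : QS W} {x Y : W.L} (h1 : h (dg τ 1) (Y ⊔ x) = 1) : h x (Y ⊔ dg τ 1) = h x Y := by
  have h2 : h (dg τ 1) Y = 1 := le_antisymm (h_dg_le_one _ _) (h1.ge.trans (h_anti le_sup_left))
  have h3 : I x (dg τ 1) Y = 0 := by
    rw [I_zero_iff_h', sup_comm, h1, h2]
  rw [I_zero_iff_h] at h3
  rw [← h3, sup_comm]

section typ

variable {S : Sp} {β κ : Type} [Fintype β] [Fintype κ] {D : Dat S β κ} {t : QS S} {r₁ : ℝ} {B X : S.L}

/-- transports -/
def Typ.trl (T : Typ D t r₁ B X) {r : ℝ} (hr : r ≤ r₁) {W : Sp} (P P' : Pj W S) (hV : Ag T.bV P P')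
    (hf : ∀ a, P.qs (T.f a) = P'.qs (T.f a)) (hR : Rl D.R (B ⊔ dg t 1))
    (ht : ∀ Y, h (dg (P'.qs t) 1) (P.map Y) = 1) (lin : ∀ a, ∃ f x : QS S, dg f 1 ≤ B ∧ dg x 1 ≤ B ∧ D.q a = f + t * x)
    (tq : dg t 1 ≤ D.qi) : TrL D B t r where
  W := W
  P := P
  P' := P'
  com := by
    rw [← T.ioB]
    exact hV.map_io T.bdd
  G := fun k => MvPolynomial.map P.qs (T.G k)
  p := MvPolynomial.map P.qs T.p
  Gk := fun k => map_PK P (T.Gk k)
  pk := map_PK P T.pk
  hG := fun k => Id_mono hr (T.hG W P P' hV hf k)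
  hp := Id_mono hr (T.hp W P P' hV hf)
  hT := fun l => Id_mono hr (T.hT W P P' hV hf l)
  Rreal := by
    unfold Rl
    rw [P.qs_dg, ← sup_assoc, ← P.map_sup, P.qs_vd, full_ind, P.h_map]
    · exact hR
    · rw [← P.map_sup]
      exact ht _
  treal := by
    rw [P.qs_dg, ← P.map_sup]
    exact ht _
  lin := lin
  tq := tq

end typ

section corner

variable {S : Sp} {d N r : ℕ} {c : CD S d N r} {w : Fin N → ℝ} {z : Fin N} {ρ : ℝ}

theorem card_ne (z : Fin N) : ((Fintype.card {j : Fin N // j ≠ z} : ℕ) : ℝ) = (N : ℝ) - 1 := by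
  have h1 : Fintype.card {j : Fin N // j ≠ z} = N - 1 := by
    rw [Fintype.card_subtype_compl, Fintype.card_fin, Fintype.card_subtype_eq]
  have h2 : 1 ≤ N := by
    have := z.2
    omega
  rw [h1, Nat.cast_sub h2, Nat.cast_one]

/-- the hatted coordinates have the same digits over the base point -/
theorem low_le {H : HH S d N} (hT : Tri w H) {X : S.L} (hP : c.P ≤ X) (j : Fin N) (l : Fin N) (hl : w l < w j) :
    dg (c.R l) 1 ≤ vd (Rh w j c H) 1 ⊔ X := by
  induction l using (Pool.Agent.Helper96.UQR.wf_wt w).induction with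
  | h l ih =>
    have e : c.R l = c.cR H l + MvPolynomial.eval c.pt (H l) := by
      unfold CD.cR
      ring
    rw [e]
    apply (Kn S 1 le_rfl _).add_mem
    · exact (dg_le_vd (Rh w j c H) 1 ⟨l, hl⟩).trans le_sup_left
    · refine Pool.Agent.Helper96.UQR.eval_low (hT.real l) _ le_rfl bot_le fun m hm a ha => ?_
      rcases a with a | a
      · exact ((dg_le_vd c.q 1 a).trans hP).trans le_sup_right
      · have h1 := hT.low l m hm a ha
        exact ih a h1 (h1.trans hl)

/-- lower coordinates are full -/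
theorem low_full (hwz : ∀ j, w j ≤ w z) {H : HH S d N} (hT : Tri w H) {X : S.L} (hP : c.P ≤ X)
    (hM : h (vd (c.M z) 1) X = (N : ℝ) - 1) (j : Fin N) : Rl (Rh w j c H) X := by
  have h0 : Rl (c.M z) X := by
    unfold Rl
    rw [hM, card_ne]
  have h1 : Rl (fun l : Low w j => c.R l.1) X := by
    have h2 := h0.comp (fun l : Low w j => (⟨l.1, fun h => absurd (hwz j) (not_le.mpr (h ▸ l.2))⟩ : {j : Fin N // j ≠ z}))
      (fun a b hab => by
        have h3 := congrArg Subtype.val hab
        exact Subtype.ext h3)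
    exact h2
  apply Rl.of_ge
  have h2 : vd (fun l : Low w j => c.R l.1) 1 ≤ vd (Rh w j c H) 1 ⊔ X := by
    rw [vd_le]
    exact fun l => low_le hT hP j l.1 l.2
  unfold Rl at h1
  have h3 : h (vd (fun l : Low w j => c.R l.1) 1) X ≤ h (vd (Rh w j c H) 1 ⊔ X) X := h_mono h2
  rw [h_sup_right_of_le (le_rfl : X ≤ X), h1] at h3
  exact h3

end corner

/-! ### the next coordinate in the old coordinates -/

section cmp

variable {S : Sp} {d N r : ℕ} {c : CD S d N r} {w : Fin N → ℝ}

/-- the polynomial of the next coordinate in the old coordinates -/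
def cmp (H : HH S d N) {j : Fin N} (Hn : MvPolynomial (Fin (d + 1) ⊕ Low w j) (QS S)) :
    MvPolynomial (Fin (d + 1) ⊕ Fin N) (QS S) :=
  MvPolynomial.aeval (Sum.elim (fun a => MvPolynomial.X (Sum.inl a))
    (fun l : Low w j => MvPolynomial.X (Sum.inr l.1) - H l.1)) Hn

theorem eval_cmp (H : HH S d N) {j : Fin N} (Hn : MvPolynomial (Fin (d + 1) ⊕ Low w j) (QS S)) :
    MvPolynomial.eval c.pt (cmp H Hn) = MvPolynomial.eval (Sum.elim c.q (Rh w j c H)) Hn := by
  unfold cmp
  rw [eval_sbs]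
  congr 1
  congr 1
  funext a
  rcases a with a | l
  · show MvPolynomial.eval c.pt (MvPolynomial.X (Sum.inl a)) = c.q a
    rw [MvPolynomial.eval_X]
    rfl
  · show MvPolynomial.eval c.pt (MvPolynomial.X (Sum.inr l.1) - H l.1) = c.cR H l.1
    rw [map_sub, MvPolynomial.eval_X]
    rfl

theorem cmp_PK {H : HH S d N} (hH : ∀ j, H j ∈ PK ⊥) {j : Fin N}
    {Hn : MvPolynomial (Fin (d + 1) ⊕ Low w j) (QS S)} (h : Hn ∈ PK ⊥) : cmp H Hn ∈ PK ⊥ := by
  apply sbs_PK h
  rintro (a | l)
  · exact X_mem _ _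
  · exact (PK _).sub_mem (X_mem _ _) (hH l.1)

theorem cmp_low {H : HH S d N} (hT : Tri w H) {j : Fin N} (Hn : MvPolynomial (Fin (d + 1) ⊕ Low w j) (QS S))
    (n : Fin (d + 1) ⊕ Fin N →₀ ℕ) (hn : (cmp H Hn).coeff n ≠ 0) (l : Fin N) (hl : n (Sum.inr l) ≠ 0) : w l < w j := by
  have h1 : cmp H Hn ∈ MvPolynomial.supported (QS S) {a : Fin (d + 1) ⊕ Fin N | ∀ l, a = Sum.inr l → w l < w j} := by
    apply Pool.Agent.Helper46.THA.aeval_supported
    rintro m hm (a | l') ha
    · exact MvPolynomial.X_mem_supported.mpr (fun l h => by simp at h)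
    · apply Subalgebra.sub_mem
      · refine MvPolynomial.X_mem_supported.mpr (fun l h => ?_)
        have h2 := Sum.inr_injective h
        rw [← h2]
        exact l'.2
      · apply Pool.Agent.Helper46.THA.mem_supported_of
        rintro k hk a hka l rfl
        exact (hT.low l'.1 k hk l hka).trans l'.2
  rw [MvPolynomial.mem_supported] at h1
  have h2 : Sum.inr l ∈ (cmp H Hn).vars := by
    rw [MvPolynomial.mem_vars_iff_mem_support]
    exact ⟨n, MvPolynomial.mem_support_iff.mpr hn, Finsupp.mem_support_iff.mpr hl⟩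
  exact h1 h2 l rfl

/-- the new triangular change of coordinates -/
theorem tri_update {H : HH S d N} (hT : Tri w H) {j : Fin N} {Hn : MvPolynomial (Fin (d + 1) ⊕ Low w j) (QS S)}
    (h : Hn ∈ PK ⊥) : Tri w (Function.update H j (cmp H Hn)) := by
  constructor
  · intro l
    by_cases hl : l = j
    · subst hl
      rw [Function.update_self]
      exact cmp_PK hT.real h
    · rw [Function.update_of_ne hl]
      exact hT.real l
  · intro l n hn l' hl'
    by_cases hl : l = j
    · subst hl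
      rw [Function.update_self] at hn
      exact cmp_low hT Hn n hn l' hl'
    · rw [Function.update_of_ne hl] at hn
      exact hT.low l n hn l' hl'

theorem cR_update_self (H : HH S d N) {j : Fin N} (Hn : MvPolynomial (Fin (d + 1) ⊕ Low w j) (QS S)) :
    c.cR (Function.update H j (cmp H Hn)) j = c.R j - MvPolynomial.eval (Sum.elim c.q (Rh w j c H)) Hn := by
  unfold CD.cR
  rw [Function.update_self, eval_cmp]

theorem cR_update_of_ne (H : HH S d N) {j l : Fin N} (hl : l ≠ j) (P : MvPolynomial (Fin (d + 1) ⊕ Fin N) (QS S)) :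
    c.cR (Function.update H j P) l = c.cR H l := by
  unfold CD.cR
  rw [Function.update_of_ne hl]

end cmp

end

end Pool.Agent.Helper57.THA
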