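import Pool.Agent.Helper57.THA.Fin
import Pool.Agent.Helper13.AM.Fin3

/-! ALL DIMENSIONS, exact calculus: THEOREM BLOCK. -/

set_option autoImplicit false

namespace Pool.Agent.Helper57.THA

open Pool.Agent.Helper13.AM

/-- THEOREM BLOCK, all dimensions -/
theorem st_block : BLOCK := block_tha st_tha

end Pool.Agent.Helper57.THA
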