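import Pool.Agent.Helper57.THA.Asm

/-! THEOREM A for corners: the next coordinate. -/

set_option autoImplicit false
set_option linter.unusedVariables false

namespace Pool.Agent.Helper57.THA

open Finset Filter Topology Pool.Agent.Helper69.RK Pool.Agent.Helper31.EC Pool.Agent.Helper31.EC.Sp
open Pool.Agent.Helper31.EC.QS Pool.Agent.Helper57.TA Pool.Agent.Helper13.AM
open Pool.Agent.Helper79.WLK (LB LR sh EdgD edgD_of_tr)
open Pool.Agent.Helper79.HLD (vd_sume)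
open Pool.Agent.Helper14.WLK (Ag LG CS exists_lvar)

noncomputable section

variable {S : Sp} {d N r : ℕ} {c : CD S d N r} {w : Fin N → ℝ} {z : Fin N} {ρ : ℝ}

/-- base point and lower coordinates are full -/
theorem X_full (hA : c.Ax w z ρ) {H : HH S d N} (hT : Tri w H) (j : Fin N) : Rl (Sum.elim c.q (Rh w j c H)) ⊥ := by
  have h1 := low_full hA.wz hT (le_rfl : c.P ≤ c.P) (by
    have h2 := hA.num.pr1 1 zero_le_one le_rfl
    rw [mul_one] at h2
    exact h2) j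
  have h2 := hA.ln.real
  unfold Rl at h1 h2 ⊢
  have h3 := h_chain (vd c.q 1) (vd (Rh w j c H) 1) ⊥
  rw [vd_sume, h3, h2, Fintype.card_sum, Nat.cast_add]
  have e1 : c.P = vd c.q 1 := rfl
  rw [← e1, sup_bot_eq, h1]

/-- the functions of the point over the curve -/
theorem O_le_B (hA : c.Ax w z ρ) (i : Fin r) {B : S.L} (hb : c.b i ≤ B) : c.O ≤ B ⊔ vd (c.cv i) 1 ⊔ dg (c.q 0) 1 := by
  have h1 := hA.ln.O_le i
  refine h1.trans (sup_le_sup_right ?_ _)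
  exact sup_le_sup_right hb _

/-- THE NEXT COORDINATE -/
theorem next (hOUTF : ST_OUTF) (hOUTU : ST_OUTU) (hA : c.Ax w z ρ) {B X : Fin r → S.L} (hBX : ∀ i, B i ≤ X i)
    (hb : ∀ i, c.b i ≤ B i) (hx : ∀ i, c.xi i ≤ X i) (ht : ∀ i, h (dg (c.q 0) 1) (X i) = 1)
    (hM : ∀ i, h (vd (c.M z) 1) (B i ⊔ dg (c.q 0) 1) = (N : ℝ) - 1) {A : Finset (Fin N)} {κ s' : ℝ}
    {H : HH S d N} {Jh : Fin N → MvPolynomial (Fin (d + 1)) (QS S)} (hκ : 0 < κ) (hκ1 : κ ≤ 1) (hs' : 0 < s')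
    (hzs : w z * s' < 1) (hF : FU w c A κ s' H Jh B X) {j : Fin N} (hj : j ∉ A)
    (D : Dat S (Fin (d + 1)) (Low w j)) (hDq : D.q = c.q) (hDR : D.R = Rh w j c H) (hDz : D.z = c.R j)
    (hDwt : D.wt = wt d w j) (hDw : D.w = w j)
    (hLB : ∀ s, 0 ≤ s → s ≤ s' → LB D.q D.R D.Pj D.wt (gH c H s) s)
    (hLR : ∀ s, 0 ≤ s → s ≤ s' → LR D.q D.R D.Pj D.z D.J (gH c H s) (D.w * s))
    {r₁ : ℝ} (hr1 : 0 < r₁) (hr11 : r₁ ≤ 1) (hTy : ∀ i, Nonempty (Typ D (c.q 0) r₁ (B i) (X i)))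
    {s₁ s₂ s₃ : ℝ} (hs3 : 0 < s₃) (h32 : s₃ ≤ s₂) (h21 : s₂ ≤ s₁) (hs1 : s₁ ≤ s') (hws1 : D.w * s₁ ≤ r₁)
    (h2l : ∀ l, D.w * s₂ ≤ (D.w - D.wv l) * s₁) (h3l : ∀ l, D.w * s₃ ≤ (D.w - D.wv l) * s₂)
    (hW : ∀ s, 0 < s → s ≤ s₁ → ∃ k : Walk D s, k.T ∧ k.RC) (hP : PolQ c.q B (c.q 0) (D.w * s₂)) :
    ∃ (κ' : ℝ) (H' : HH S d N) (Jh' : Fin N → MvPolynomial (Fin (d + 1)) (QS S)), 0 < κ' ∧ κ' ≤ 1 ∧
      FU w c (insert j A) κ' s₃ H' Jh' B X := by
  classical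
  have hw0 : 0 < w j := zero_lt_one.trans (hA.w1 j)
  have hDw0 : 0 < D.w := by
    rw [hDw]
    exact hw0
  have hs2 : 0 < s₂ := hs3.trans_le h32
  have hs10 : 0 < s₁ := hs2.trans_le h21
  have hX : D.X = Sum.elim c.q (Rh w j c H) := by
    show Sum.elim D.q D.R = _
    rw [hDq, hDR]
  have hqi : D.qi = c.P := by
    show vd D.q 1 = vd c.q 1
    rw [hDq]
  have h21' : D.w * s₂ ≤ r₁ := (mul_le_mul_of_nonneg_left h21 hDw0.le).trans hws1
  have h31' : D.w * s₃ ≤ r₁ := (mul_le_mul_of_nonneg_left h32 hDw0.le).trans h21'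
  -- two points over every curve
  have hTT : ∀ i, ∃ (T : Typ D (c.q 0) r₁ (B i) (X i)) (γ : ℕ → Type) (U : ∀ k, (S.F k).Ω → γ k) (W : Sp)
      (P P' : Pj W S), Bdd U ∧ io U ≤ X i ∧ B i ⊔ vd (c.cv i) 1 ≤ io U ∧ Ag U P P' ∧ Ag T.bV P P' ∧
      (∀ a, P.qs (T.f a) = P'.qs (T.f a)) ∧ (∀ x y, I (P.map x) (P'.map y) (P.map (io U)) = 0) ∧
      ∀ Y, h (dg (P'.qs (c.q 0)) 1) (P.map Y) = 1 := by
    intro i
    obtain ⟨T⟩ := hTy i
    let := T.fin
    have h1 : vd (Sum.elim T.f (c.cv i)) 1 = vd T.f 1 ⊔ vd (c.cv i) 1 := vd_sume _ _ _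
    obtain ⟨γ, U, W, P, P', h2, h3, h4, h5, h6, h7, h8⟩ := two_pts T.bdd (Sum.elim T.f (c.cv i)) (c.q 0) (by
      apply le_antisymm (h_dg_le_one _ _)
      refine (ht i).ge.trans (h_anti ?_)
      rw [h1, T.ioB]
      exact sup_le (hBX i) (sup_le T.fX (le_sup_right.trans (hx i))))
    rw [h1, T.ioB] at h3
    refine ⟨T, γ, U, W, P, P', h2, ?_, ?_, h4, h5, fun a => h6 (Sum.inl a), h7, h8⟩
    · rw [h3]
      exact sup_le (hBX i) (sup_le T.fX (le_sup_right.trans (hx i)))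
    · rw [h3]
      exact sup_le_sup_left le_sup_right _
  choose T γ U W P P' hU hUX hBU hAg hAb hAf hI hfull using hTT
  have hlin : ∀ i a, ∃ f x : QS S, dg f 1 ≤ B i ∧ dg x 1 ≤ B i ∧ D.q a = f + c.q 0 * x := by
    intro i a
    refine ⟨c.a i a, c.u i a, ?_, ?_, ?_⟩
    · exact ((dg_le_vd (c.a i) 1 a).trans (hA.ln.a_le i)).trans (hb i)
    · exact ((dg_le_vd (c.u i) 1 a).trans (hA.ln.u_le i)).trans (hb i)
    · rw [hDq]
      exact hA.ln.line i a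
  have htq : dg (c.q 0) 1 ≤ D.qi := by
    rw [hqi]
    exact dg_le_vd c.q 1 0
  have hRl : ∀ i, Rl D.R (B i ⊔ dg (c.q 0) 1) := by
    intro i
    rw [hDR]
    exact low_full hA.wz hF.tri ((hA.ln.P_le i).trans (sup_le_sup_right (hb i) _)) (hM i) j
  have trl : ∀ i {ρ' : ℝ}, ρ' ≤ r₁ → TrL D (B i) (c.q 0) ρ' := fun i ρ' hρ =>
    (T i).trl hρ (P i) (P' i) (hAb i) (hAf i) (hRl i) (hfull i) (hlin i) htq
  obtain ⟨Hn, Jn, hHn, hJn, hJnw, _, hfl, _, hpr⟩ := st_ASL S (Fin (d + 1)) (Low w j) _ _ D s₁ s₂ s₃ (Fin r) B (c.q 0)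
    hs3 h32 h21 (hws1.trans hr11) h2l h3l (by rw [hX]; exact X_full hA hF.tri j) (by
      obtain ⟨k, _⟩ := hW s₁ hs10 le_rfl
      exact ⟨k⟩) (hW s₂ hs2 h21) (by
      obtain ⟨k, hk, _⟩ := hW s₃ hs3 (h32.trans h21)
      exact ⟨k, hk⟩) (fun i => ⟨trl i h21'⟩) (by rw [hDq]; exact hP)
  obtain ⟨a, ha⟩ : ∃ a, a = D.z - MvPolynomial.eval D.X Hn := ⟨_, rfl⟩
  have haO : dg a 1 ≤ c.O := by
    rw [ha, hDz, hX]
    apply (Kn S 1 le_rfl _).sub_mem ((dg_le_vd c.R 1 j).trans le_sup_right)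
    refine QS.eval_mem hHn _ bot_le ?_
    rintro (b | l)
    · exact (dg_le_vd c.q 1 b).trans le_sup_left
    · show dg (c.cR H l.1) 1 ≤ _
      unfold CD.cR
      apply (Kn S 1 le_rfl _).sub_mem ((dg_le_vd c.R 1 l.1).trans le_sup_right)
      refine QS.eval_mem (hF.tri.real l.1) _ bot_le ?_
      rintro (b | l')
      · exact (dg_le_vd c.q 1 b).trans le_sup_left
      · exact (dg_le_vd c.R 1 l').trans le_sup_right
  have hflat : ∀ i, ∃ (k : ℕ) (e : Fin (k + 1) → QS S), (∀ l : Fin k, dg (e l.succ) 1 ≤ B i) ∧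
      dg (e 0) 1 ≤ io (U i) ∧ a - pe e (c.q 0) ∈ Id S (D.w * s₃) := by
    intro i
    obtain ⟨g, hg, hgc⟩ := hfl i (D.w * s₃) le_rfl
      ((T i).trl h31' (P i) (P' i) (hAb i) (hAf i) (hRl i) (hfull i) (hlin i) htq)
    rw [← ha] at hgc
    have hcom : (P i).map (B i) = (P' i).map (B i) := by
      rw [← (T i).ioB]
      exact (hAb i).map_io (T i).bdd
    exact hOUTF S (W i) (P i) (P' i) (γ i) (U i) (B i) (c.q 0) a (D.w * s₃) (hU i) (mul_pos hDw0 hs3)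
      (h31'.trans hr11) (hAg i) (le_sup_left.trans (hBU i)) hcom (hI i)
      (le_antisymm (h_dg_le_one _ _) ((ht i).ge.trans (h_anti (hUX i))))
      (haO.trans ((O_le_B hA i (hb i)).trans (sup_le_sup_right (hBU i) _))) g hg hgc
  have hcj : c.cR (Function.update H j (cmp H Hn)) j = a := by
    rw [cR_update_self, ha, hDz, hX]
  refine ⟨min κ (D.w * s₃), Function.update H j (cmp H Hn), Function.update Jh j Jn,
    lt_min hκ (mul_pos hDw0 hs3), (min_le_left _ _).trans hκ1, tri_update hF.tri hHn, ?_, ?_, ?_, ?_⟩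
  · intro i l hl
    by_cases hlj : l = j
    · subst hlj
      rw [hcj]
      obtain ⟨k, e, h1, h2, h3⟩ := hflat i
      exact ⟨k, e, h1, h2.trans (hUX i), Id_mono (min_le_right _ _) h3⟩
    · rw [cR_update_of_ne H hlj]
      obtain ⟨k, e, h1, h2, h3⟩ := hF.flat i l (Finset.mem_of_mem_insert_of_ne hl hlj)
      exact ⟨k, e, h1, h2, Id_mono (min_le_left _ _) h3⟩
  · intro l hl
    by_cases hlj : l = j
    · subst hlj
      rw [Function.update_self]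
      rw [hqi] at hJn
      exact hJn
    · rw [Function.update_of_ne hlj]
      exact hF.Jk l (Finset.mem_of_mem_insert_of_ne hl hlj)
  · intro l hl n hn
    by_cases hlj : l = j
    · subst hlj
      rw [Function.update_self] at hn
      have h1 := hJnw n hn
      rw [hDwt, hDw] at h1
      exact h1
    · rw [Function.update_of_ne hlj] at hn
      exact hF.Jw l (Finset.mem_of_mem_insert_of_ne hl hlj) n hn
  · intro l hl s hs0 hs
    by_cases hlj : l = j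
    · subst hlj
      unfold UntE
      rw [hcj, Function.update_self, ha]
      exact hOUTU S d N r c w z ρ hA H hF.tri l s₃ D hs3
        ((mul_le_mul_of_nonneg_left ((h32.trans h21).trans hs1)
          (zero_le_one.trans (hA.w1 z).le)).trans_lt hzs) hDq hDR hDz hDwt hDw
        (fun s h0 h1 => hLB s h0 (h1.trans ((h32.trans h21).trans hs1)))
        (fun s h0 h1 => hLR s h0 (h1.trans ((h32.trans h21).trans hs1))) Hn Jn hHn hJn
        (fun n hn => by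
          have h1 := hJnw n hn
          rw [hDwt, hDw] at h1
          exact h1) hpr s hs0 hs
    · unfold UntE
      rw [cR_update_of_ne H hlj, Function.update_of_ne hlj]
      exact hF.unt l (Finset.mem_of_mem_insert_of_ne hl hlj) s hs0 (hs.trans ((h32.trans h21).trans hs1))

end

end Pool.Agent.Helper57.THA
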