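import Pool.Agent.Helper13.AM.Blk
import Pool.Agent.Helper13.AM.Der
import Pool.Agent.Helper14.WLK.Lf
import Pool.Agent.Helper79.WLK.Brg
import Pool.Agent.Helper57.TA.Str

/-! THEOREM A for corners (`ST_THA` of helper13): definitions and statements of the pieces. -/

set_option autoImplicit false
set_option linter.unusedVariables false

namespace Pool.Agent.Helper57.THA

open Finset Filter Topology Pool.Agent.Helper69.RK Pool.Agent.Helper31.EC Pool.Agent.Helper31.EC.Sp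
open Pool.Agent.Helper31.EC.QS Pool.Agent.Helper57.TA Pool.Agent.Helper13.AM
open Pool.Agent.Helper79.WLK (LB LR sh)
open Pool.Agent.Helper14.WLK (Ag LG CS)
open Pool.Agent.Helper40.EL (Lab Nul rp)

noncomputable section

variable {S : Sp} {d N r : ℕ}

/-! ### lower coordinates, weights, labels -/

/-- coordinates of lower weight -/
abbrev Low (w : Fin N → ℝ) (j : Fin N) : Type := {l : Fin N // w l < w j}

/-- weights of base coordinates and lower coordinates -/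
def wt (d : ℕ) (w : Fin N → ℝ) (j : Fin N) : Fin (d + 1) ⊕ Low w j → ℝ := Sum.elim (fun _ => 1) (fun l => w l.1)

/-- weight of a monomial in the base coordinates -/
def w1 {d : ℕ} (n : Fin (d + 1) →₀ ℕ) : ℝ := wgt (fun _ => 1) n

/-- weight of a monomial in base and vertical coordinates -/
def wN {d : ℕ} (w : Fin N → ℝ) (m : Fin (d + 1) ⊕ Fin N →₀ ℕ) : ℝ := wgt (Sum.elim (fun _ => 1) w) m

/-- real triangular changes of coordinates -/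
abbrev HH (S : Sp) (d N : ℕ) : Type := Fin N → MvPolynomial (Fin (d + 1) ⊕ Fin N) (QS S)

/-- the label of scale `s`: box functions and coefficients of `H` -/
def gH (c : CD S d N r) (H : HH S d N) (s : ℝ) : Fin (c.m s) ⊕ (Σ j : Fin N, {m // m ∈ (H j).support}) → QS S :=
  Sum.elim (c.G s) (fun x => (H x.1).coeff x.2.1)

/-- displacement of the base point in the box of scale `s` -/
def dq (c : CD S d N r) (s : ℝ) (a : Fin (d + 1)) : QS S := c.q a - c.q0 s a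

/-- the frame of the changed coordinate: `cR H j = Ph (dq, γ) + γ j` -/
def Ph (c : CD S d N r) (H : HH S d N) (s : ℝ) (j : Fin N) : MvPolynomial (Fin (d + 1) ⊕ Fin N) (QS S) :=
  c.F s j - MvPolynomial.aeval (Sum.elim (fun a => MvPolynomial.C (c.q0 s a) + MvPolynomial.X (Sum.inl a))
    (fun l => c.F s l + MvPolynomial.X (Sum.inr l))) (H j)

/-- the horizontal part (vertical variables `= 0`) -/
def h0 {A : Type*} [CommRing A] {β κ : Type*} (P : MvPolynomial (β ⊕ κ) A) : MvPolynomial β A :=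
  MvPolynomial.aeval (Sum.elim MvPolynomial.X (fun _ => 0)) P

/-- the changed box coordinate -/
def gh (c : CD S d N r) (H : HH S d N) (s : ℝ) (l : Fin N) : QS S :=
  c.cR H l - MvPolynomial.eval (dq c s) (h0 (Ph c H s l))

/-- UNTILTED at the scale `s` with horizontal jets `Jh` -/
def UntE (w : Fin N → ℝ) (c : CD S d N r) (H : HH S d N) (Jh : MvPolynomial (Fin (d + 1)) (QS S)) (s : ℝ)
    (j : Fin N) : Prop :=
  ∃ Ψ : MvPolynomial (Fin (d + 1)) (QS S), Ψ ∈ PK (c.K s) ∧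
    c.cR H j - MvPolynomial.eval (dq c s) Ψ ∈ Id S (w j * s) ∧
    ∀ n, n ≠ 0 → (sh (dq c s) Ψ).coeff n - Jh.coeff n ∈ Id S ((w j - w1 n) * s)

/-- the same for the frame -/
def UntF (w : Fin N → ℝ) (c : CD S d N r) (H : HH S d N) (Jh : MvPolynomial (Fin (d + 1)) (QS S)) (s : ℝ)
    (j : Fin N) : Prop :=
  (∀ m : Fin (d + 1) ⊕ Fin N →₀ ℕ, (∃ l, m (Sum.inr l) ≠ 0) → (Ph c H s j).coeff m ∈ Id S ((w j - wN w m) * s)) ∧
    ∀ n, n ≠ 0 → (sh (dq c s) (h0 (Ph c H s j))).coeff n - Jh.coeff n ∈ Id S ((w j - w1 n) * s)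

/-- THE COORDINATES `A` ARE FLAT (mod `Id κ`, over the lines `B i` and curves `X i`) AND UNTILTED (scales `≤ s₀`) -/
structure FU (w : Fin N → ℝ) (c : CD S d N r) (A : Finset (Fin N)) (κ s₀ : ℝ) (H : HH S d N)
    (Jh : Fin N → MvPolynomial (Fin (d + 1)) (QS S)) (B X : Fin r → S.L) : Prop where
  tri : Tri w H
  flat : ∀ i, ∀ j ∈ A, ∃ (k : ℕ) (e : Fin (k + 1) → QS S), (∀ l : Fin k, dg (e l.succ) 1 ≤ B i) ∧
    dg (e 0) 1 ≤ X i ∧ c.cR H j - pe e (c.q 0) ∈ Id S κ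
  Jk : ∀ j ∈ A, Jh j ∈ PK (vd c.q 1)
  Jw : ∀ j ∈ A, ∀ n, (Jh j).coeff n ≠ 0 → n ≠ 0 ∧ w1 n < w j
  unt : ∀ j ∈ A, ∀ s, 0 ≤ s → s ≤ s₀ → UntE w c H (Jh j) s j

/-! ### data of one step -/

/-- hatted lower coordinates -/
def Rh (w : Fin N → ℝ) (j : Fin N) (c : CD S d N r) (H : HH S d N) (l : Low w j) : QS S := c.cR H l.1

/-- TRANSPORTS of one type: literal base line `bV` (`io = B`), finitely many further functions `f` of the curve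
(known to `X`); the transports hold for all pairs of points which agree in `bV` and `f` -/
structure Typ {β κ : Type} [Fintype β] [Fintype κ] (D : Dat S β κ) (t : QS S) (r₁ : ℝ) (B X : S.L) where
  al : ℕ → Type
  bV : ∀ k, (S.F k).Ω → al k
  bdd : Bdd bV
  ioB : io bV = B
  φ : Type
  fin : Fintype φ
  f : φ → QS S
  fX : vd f 1 ≤ X
  G : κ → MvPolynomial (Fin 2) (QS S)
  p : MvPolynomial (κ ⊕ Fin 2) (QS S)
  Gk : ∀ k, G k ∈ PK B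
  pk : p ∈ PK B
  hG : ∀ (W : Sp) (P P' : Pj W S), Ag bV P P' → (∀ a, P.qs (f a) = P'.qs (f a)) → ∀ k,
    P'.qs (D.R k) - P.qs (D.R k) - MvPolynomial.eval ![P.qs t, P'.qs t] (MvPolynomial.map P.qs (G k)) ∈ Id W r₁
  hp : ∀ (W : Sp) (P P' : Pj W S), Ag bV P P' → (∀ a, P.qs (f a) = P'.qs (f a)) →
    P'.qs D.z - P.qs D.z - MvPolynomial.eval (Sum.elim (fun k => P.qs (D.R k)) ![P.qs t, P'.qs t])
      (MvPolynomial.map P.qs p) ∈ Id W r₁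
  hT : ∀ (W : Sp) (P P' : Pj W S), Ag bV P P' → (∀ a, P.qs (f a) = P'.qs (f a)) → ∀ l,
    P'.qs (D.c l) - P.qs (D.c l) - MvPolynomial.eval (Sum.elim (fun k => P.qs (D.R k)) ![P.qs t, P'.qs t])
      (MvPolynomial.pderiv (Sum.inl l) (MvPolynomial.map P.qs p)) ∈ Id W r₁

/-! ### statements of the rows -/

/-- [UNIQ] -/
def ST_UNIQ : Prop := ∀ (S : Sp) (d N r : ℕ) (c : CD S d N r) (w : Fin N → ℝ) (z : Fin N) (ρ : ℝ), c.Ax w z ρ →
  ∀ H : HH S d N, Tri w H → ∀ (Jh : MvPolynomial (Fin (d + 1)) (QS S)) (s : ℝ) (j : Fin N), 0 ≤ s → w z * s < 1 →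
    UntE w c H Jh s j → UntF w c H Jh s j

/-- [HAT] the frame of `R j` in the hatted lower box coordinates (exact identity, no smallness) -/
def ST_HAT : Prop := ∀ (S : Sp) (d N r : ℕ) (c : CD S d N r) (w : Fin N → ℝ) (z : Fin N) (ρ : ℝ), c.Ax w z ρ →
  ∀ H : HH S d N, Tri w H → ∀ (s : ℝ) (j : Fin N), 0 ≤ s → w z * s ≤ 1 →
    ∃ Fh : MvPolynomial (Fin (d + 1) ⊕ Low w j) (QS S), Fh ∈ CS (LG (gH c H s)) ∧
      c.R j = MvPolynomial.eval (Sum.elim (dq c s) (fun l => gh c H s l.1)) Fh + c.γ s j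

/-- [LBR] boxes with hatted lower coordinates: membership and fullness, one polynomial `J` of the next coordinate for
all scales -/
def ST_LBR : Prop := ∀ (S : Sp) (d N r : ℕ) (c : CD S d N r) (w : Fin N → ℝ) (z : Fin N) (ρ : ℝ), c.Ax w z ρ →
  ∀ H : HH S d N, Tri w H → ∀ (Jh : Fin N → MvPolynomial (Fin (d + 1)) (QS S)) (j : Fin N) (s₀ : ℝ), 0 < s₀ →
    w z * s₀ < 1 → (∀ l : Low w j, Jh l.1 ∈ PK (vd c.q 1)) →
    (∀ l : Low w j, ∀ n, (Jh l.1).coeff n ≠ 0 → n ≠ 0 ∧ w1 n < w l.1) →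
    (∀ l : Low w j, ∀ s, 0 ≤ s → s ≤ s₀ → UntF w c H (Jh l.1) s l.1) →
    (∀ s, 0 ≤ s → s ≤ s₀ → LB c.q (Rh w j c H) (fun l => Jh l.1) (wt d w j) (gH c H s) s) ∧
    ∃ J : MvPolynomial (Fin (d + 1) ⊕ Low w j) (QS S), J ∈ PK c.O ∧
      (∀ m, J.coeff m ≠ 0 → m ≠ 0 ∧ wgt (wt d w j) m < w j) ∧
      ∀ s, 0 ≤ s → s ≤ s₀ → LR c.q (Rh w j c H) (fun l => Jh l.1) (c.R j) J (gH c H s) (w j * s)

/-- [ZFU] flat untilted coordinates under a zoom (over the old lines and curves) -/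
def ST_ZFU : Prop := ∀ (d N r : ℕ) (w : Fin N → ℝ) (z : Fin N) (ρ : ℝ) (C : ∀ S : Sp, CD S d N r → Prop),
  Cls d N r w z ρ C → ∀ (S : Sp) (c : CD S d N r), C S c → ∀ (A : Finset (Fin N)) (κ s₀ : ℝ) (H : HH S d N)
    (Jh : Fin N → MvPolynomial (Fin (d + 1)) (QS S)), (∀ j ∈ A, ∀ l, w l < w j → l ∈ A) → κ ≤ 1 →
    FU w c A κ s₀ H Jh c.b c.xi → ∀ (y e : ℝ) (he : 0 < e) (h1 : e ≤ 1), 0 < y → y < s₀ → w z * y < κ →
      w z * y + e ≤ 1 → ∀ (Z : ∀ k, Setoid (S.F k).Ω) (c' : CD (S.chg Z e he) d N r), c.ZR w z y e he h1 Z c' →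
        C _ c' → ∃ (κ' s' : ℝ) (H' : HH (S.chg Z e he) d N)
          (Jh' : Fin N → MvPolynomial (Fin (d + 1)) (QS (S.chg Z e he))), 0 < κ' ∧ κ' ≤ 1 ∧ 0 < s' ∧ w z * s' < 1 ∧
          FU w c' A κ' s' H' Jh' (fun i => chgL Z e he (c.b i)) (fun i => chgL Z e he (c.xi i)) ∧
          ∀ l ∈ A, ∃ Y : QS S, gh c H y l = sc S (w l * y) * Y ∧ c'.cR H' l = cQ Z e he h1 Y

/-- [DEEP] facts on the zoom `c'` for the lines and curves of `c` -/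
def ST_DEEP : Prop := ∀ (d N r : ℕ) (w : Fin N → ℝ) (z : Fin N) (ρ : ℝ) (C : ∀ S : Sp, CD S d N r → Prop),
  Cls d N r w z ρ C → ∀ (S : Sp) (c : CD S d N r), C S c → ∀ (y e : ℝ) (he : 0 < e) (h1 : e ≤ 1), 0 ≤ y →
    w z * y + e ≤ 1 → ∀ (Z : ∀ k, Setoid (S.F k).Ω) (c' : CD (S.chg Z e he) d N r), c.ZR w z y e he h1 Z c' →
      C _ c' → ∀ i,
        h (dg (c'.q 0) 1) (chgL Z e he (c.xi i)) = 1 ∧
        h (vd (c'.M z) 1) (chgL Z e he (c.b i) ⊔ dg (c'.q 0) 1) = (N : ℝ) - 1 ∧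
        I (chgL Z e he (c.b i)) c'.O (vd c'.q 1) = 0

/-- [TYP] (helper14): transports of the next coordinate on a zoom -/
def ST_TYP : Prop := ∀ (d N r : ℕ) (w : Fin N → ℝ) (z : Fin N) (ρ : ℝ) (C : ∀ S : Sp, CD S d N r → Prop),
  Cls d N r w z ρ C → TRs w z C → ∀ (S : Sp) (c : CD S d N r), C S c →
    ∀ (A : Finset (Fin N)) (κ s₀ : ℝ) (H : HH S d N) (Jh : Fin N → MvPolynomial (Fin (d + 1)) (QS S)) (j : Fin N),
    (∀ l, w l < w j → l ∈ A) → κ ≤ 1 → FU w c A κ s₀ H Jh c.b c.xi →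
    ∀ (y e : ℝ) (he : 0 < e) (h1 : e ≤ 1), 0 < y → y < s₀ → 2 * w z * y < κ → 2 * w z * y < 1 → w z * y + e ≤ 1 →
    ∀ (Z : ∀ k, Setoid (S.F k).Ω) (c' : CD (S.chg Z e he) d N r), c.ZR w z y e he h1 Z c' → C _ c' →
    ∀ (κ' s' : ℝ) (H' : HH (S.chg Z e he) d N) (Jh' : Fin N → MvPolynomial (Fin (d + 1)) (QS (S.chg Z e he))),
      0 < κ' → κ' ≤ 1 → 0 < s' → w z * s' < 1 →
      FU w c' A κ' s' H' Jh' (fun i => chgL Z e he (c.b i)) (fun i => chgL Z e he (c.xi i)) →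
      (∀ l ∈ A, ∃ Y : QS S, gh c H y l = sc S (w l * y) * Y ∧ c'.cR H' l = cQ Z e he h1 Y) →
      ∀ D : Dat (S.chg Z e he) (Fin (d + 1)) (Low w j), D.q = c'.q → D.R = Rh w j c' H' → D.z = c'.R j →
        D.wt = wt d w j → D.w = w j → (D.Pj = fun l => Jh' l.1) →
        (∀ s, 0 ≤ s → s ≤ s' → LB D.q D.R D.Pj D.wt (gH c' H' s) s) →
        (∀ s, 0 ≤ s → s ≤ s' → LR D.q D.R D.Pj D.z D.J (gH c' H' s) (D.w * s)) →
        ∃ r₁ : ℝ, 0 < r₁ ∧ r₁ ≤ 1 ∧ ∀ i, Nonempty (Typ D (c'.q 0) r₁ (chgL Z e he (c.b i)) (chgL Z e he (c.xi i)))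

/-- [CONN] no labels on the zoom over the deeper curves -/
def ST_CONN : Prop := ∀ (d N r : ℕ) (w : Fin N → ℝ) (z : Fin N) (ρ : ℝ) (C : ∀ S : Sp, CD S d N r → Prop),
  Cls d N r w z ρ C → ∀ (S : Sp) (c : CD S d N r), C S c → ∀ (y e : ℝ) (he : 0 < e) (h1 : e ≤ 1), 0 ≤ y →
    w z * y + e ≤ 1 → ∀ (Z : ∀ k, Setoid (S.F k).Ω) (c' : CD (S.chg Z e he) d N r), c.ZR w z y e he h1 Z c' →
      C _ c' → ∀ s, 0 ≤ s → w z * s < 1 → ∀ l : Lab (S.chg Z e he), l.sp.VB l.V →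
        Nul (S.chg Z e he) (fun k => (l k).leak (rp c'.O k)) →
        (∀ i, Nul (S.chg Z e he) (fun k => (l k).leak (rp (chgL Z e he (c.xi i) ⊔ dg (c'.q 0) s) k))) →
          Nul (S.chg Z e he) (fun k => (l k).leak (rp (c'.K s) k))

/-- [STARE] functions of the base point which are polynomials along all lines are polynomials, on an event of an
extension -/
def ST_STARE : Prop := ∀ (d N r : ℕ) (w : Fin N → ℝ) (z : Fin N) (ρ : ℝ) (C : ∀ S : Sp, CD S d N r → Prop),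
  1 ≤ d → Cls d N r w z ρ C → ∀ (k : ℕ), ∃ D : ℕ, ∀ (S : Sp) (c : CD S d N r), C S c → ∀ (a : QS S) (κ : ℝ),
    0 < κ → κ ≤ 1 → dg a 1 ≤ vd c.q 1 →
    (∀ i, ∃ α : Fin (k + 1) → QS S, (∀ l, dg (α l) 1 ≤ c.b i) ∧ a - pe α (c.q 0) ∈ Id S κ) →
    ∃ (T : Sp) (p : Pj T S) (E : ∀ k, (T.F k).Ω → Prop) (hE : 0 < ul (T.pr E))
      (Θ : MvPolynomial (Fin (d + 1)) (QS (T.rest E))), Θ ∈ PK ⊥ ∧ Θ.totalDegree ≤ D ∧
      QS.rest E hE (p.qs a) - MvPolynomial.eval (fun b => QS.rest E hE (p.qs (c.q b))) Θ ∈ Id (T.rest E) κ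

/-- [POLQ] the same on an extension -/
def ST_POLQ : Prop := ∀ (d N r : ℕ) (w : Fin N → ℝ) (z : Fin N) (ρ : ℝ) (C : ∀ S : Sp, CD S d N r → Prop),
  1 ≤ d → Cls d N r w z ρ C → ∀ (S : Sp) (c : CD S d N r), C S c → ∀ κ : ℝ, 0 < κ → κ ≤ 1 →
    PolQ c.q c.b (c.q 0) κ

/-- [HLDj] (helper79) `ST_HLD` coordinate by coordinate -/
def ST_HLDj : Prop := ∀ (d N r : ℕ) (w : Fin N → ℝ) (z : Fin N) (ρ : ℝ) (C : ∀ S : Sp, CD S d N r → Prop),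
  Cls d N r w z ρ C → ∀ (S : Sp) (c : CD S d N r), C S c → ∀ (s e : ℝ) (he : 0 < e) (h1 : e ≤ 1), 0 ≤ s →
    w z * s + e ≤ 1 → ∀ (Z : ∀ k, Setoid (S.F k).Ω) (c' : CD (S.chg Z e he) d N r), c.ZR w z s e he h1 Z c' →
      C _ c' → ∀ κ : ℝ, 0 < κ → κ ≤ 1 → ∃ κ' : ℝ, 0 < κ' ∧ κ' ≤ κ ∧ ∀ H : HH (S.chg Z e he) d N, Tri w H → ∀ j,
        (∀ i, ∃ (k : ℕ) (e' : Fin (k + 1) → QS (S.chg Z e he)),
          (∀ l : Fin k, dg (e' l.succ) 1 ≤ chgL Z e he (c.b i)) ∧ dg (e' 0) 1 ≤ chgL Z e he (c.xi i) ∧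
            c'.cR H j - pe e' (c'.q 0) ∈ Id (S.chg Z e he) κ) →
        ∀ i, ∃ (k : ℕ) (e' : Fin (k + 1) → QS (S.chg Z e he)), (∀ l : Fin k, dg (e' l.succ) 1 ≤ c'.b i) ∧
          dg (e' 0) 1 ≤ c'.xi i ∧ c'.cR H j - pe e' (c'.q 0) ∈ Id (S.chg Z e he) κ'

/-- [OUTU] the next coordinate is untilted -/
def ST_OUTU : Prop := ∀ (S : Sp) (d N r : ℕ) (c : CD S d N r) (w : Fin N → ℝ) (z : Fin N) (ρ : ℝ), c.Ax w z ρ →
  ∀ H : HH S d N, Tri w H → ∀ (j : Fin N) (s₀ : ℝ) (D : Dat S (Fin (d + 1)) (Low w j)), 0 < s₀ → w z * s₀ < 1 →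
    D.q = c.q → D.R = Rh w j c H → D.z = c.R j → D.wt = wt d w j → D.w = w j →
    (∀ s, 0 ≤ s → s ≤ s₀ → LB D.q D.R D.Pj D.wt (gH c H s) s) →
    (∀ s, 0 ≤ s → s ≤ s₀ → LR D.q D.R D.Pj D.z D.J (gH c H s) (D.w * s)) →
    ∀ (Hn : MvPolynomial (Fin (d + 1) ⊕ Low w j) (QS S)) (Jn : MvPolynomial (Fin (d + 1)) (QS S)), Hn ∈ PK ⊥ →
      Jn ∈ PK D.qi → (∀ n, Jn.coeff n ≠ 0 → n ≠ 0 ∧ w1 n < w j) →
      (∀ s, 0 < s → s ≤ s₀ → ∀ k : Pair D s,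
        (∀ m, k.P1.qs (Hn.coeff m) - k.P0.qs (Hn.coeff m) ∈ Id k.W (D.w * s)) →
        k.P1.qs (D.z - MvPolynomial.eval D.X Hn) - k.P0.qs (D.z - MvPolynomial.eval D.X Hn) -
          MvPolynomial.eval (fun a => k.raw (Sum.inl a)) (MvPolynomial.map k.P0.qs Jn) ∈ Id k.W (D.w * s)) →
      ∀ s, 0 ≤ s → s ≤ s₀ → ∃ Ψ : MvPolynomial (Fin (d + 1)) (QS S), Ψ ∈ PK (c.K s) ∧
        (D.z - MvPolynomial.eval D.X Hn) - MvPolynomial.eval (dq c s) Ψ ∈ Id S (w j * s) ∧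
        ∀ n, n ≠ 0 → (sh (dq c s) Ψ).coeff n - Jn.coeff n ∈ Id S ((w j - w1 n) * s)

/-- [OUTF] increments which are polynomials in the two times, for two points of a curve: the function is a polynomial
in the time -/
def ST_OUTF : Prop := ∀ (S W : Sp) (P P' : Pj W S) (al : ℕ → Type) (U : ∀ k, (S.F k).Ω → al k) (B : S.L) (t a : QS S)
  (κ : ℝ), Bdd U → 0 < κ → κ ≤ 1 → Ag U P P' → B ≤ io U → P.map B = P'.map B →
  (∀ x y, I (P.map x) (P'.map y) (P.map (io U)) = 0) → h (dg t 1) (io U) = 1 → dg a 1 ≤ io U ⊔ dg t 1 →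
  ∀ g : MvPolynomial (Fin 2) (QS W), g ∈ PK (P.map B) →
    P'.qs a - P.qs a - MvPolynomial.eval ![P.qs t, P'.qs t] g ∈ Id W κ →
    ∃ (k : ℕ) (e : Fin (k + 1) → QS S), (∀ l : Fin k, dg (e l.succ) 1 ≤ B) ∧ dg (e 0) 1 ≤ io U ∧
      a - pe e t ∈ Id S κ

end

end Pool.Agent.Helper57.THA
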