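import Pool.Agent.Helper57.THA.Next
import Pool.Agent.Helper79.THA.Walk
import Pool.Agent.Helper79.THA.LBR
import Pool.Agent.Helper79.THA.HLDj
import Pool.Agent.Helper92.THA.Conn
import Pool.Agent.Helper45.THA.STARE
import Pool.Agent.Helper81.THA.POLQ
import Pool.Agent.Helper80.THA.OUTF

/-! THEOREM A for corners: the step from `A` to `A ∪ {j}` and the induction. -/

set_option autoImplicit false
set_option linter.unusedVariables false

namespace Pool.Agent.Helper57.THA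

open Finset Filter Topology Pool.Agent.Helper69.RK Pool.Agent.Helper31.EC Pool.Agent.Helper31.EC.Sp
open Pool.Agent.Helper31.EC.QS Pool.Agent.Helper57.TA Pool.Agent.Helper13.AM
open Pool.Agent.Helper79.WLK (LB LR sh EdgD edgD_of_tr)
open Pool.Agent.Helper79.HLD (vd_sume)

noncomputable section

variable {d N r : ℕ} {w : Fin N → ℝ} {z : Fin N} {ρ : ℝ}

/-- the data of the next coordinate -/
def mkD {S : Sp} {c : CD S d N r} (hA : c.Ax w z ρ) {H : HH S d N} (hT : Tri w H) (j : Fin N)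
    (Jh : Fin N → MvPolynomial (Fin (d + 1)) (QS S)) (hJk : ∀ l : Low w j, Jh l.1 ∈ PK (vd c.q 1))
    (hJw : ∀ l : Low w j, ∀ n, (Jh l.1).coeff n ≠ 0 → n ≠ 0 ∧ w1 n < w l.1)
    (J : MvPolynomial (Fin (d + 1) ⊕ Low w j) (QS S)) (hJ : J ∈ PK c.O)
    (hJw' : ∀ m, J.coeff m ≠ 0 → m ≠ 0 ∧ wgt (wt d w j) m < w j) : Dat S (Fin (d + 1)) (Low w j) where
  q := c.q
  R := Rh w j c H
  z := c.R j
  wt := wt d w j
  w := w j
  Pj := fun l => Jh l.1
  J := J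
  inf := c.O
  wpos := by
    rintro (a | l)
    · exact one_pos
    · exact zero_lt_one.trans (hA.w1 l.1)
  wlt := fun l => l.2
  Pjk := hJk
  Pj0 := by
    intro l
    by_contra h
    exact (hJw l 0 h).1 rfl
  Jw := hJw'
  qinf := le_sup_left
  Rinf := by
    rw [vd_le]
    intro l
    show dg (c.cR H l.1) 1 ≤ _
    unfold CD.cR
    apply (Kn S 1 le_rfl _).sub_mem ((dg_le_vd c.R 1 l.1).trans le_sup_right)
    refine QS.eval_mem (hT.real l.1) _ bot_le ?_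
    rintro (b | l')
    · exact (dg_le_vd c.q 1 b).trans le_sup_left
    · exact (dg_le_vd c.R 1 l').trans le_sup_right
  Jinf := hJ
  zinf := (dg_le_vd c.R 1 j).trans le_sup_right

theorem exists_delta (w : Fin N → ℝ) (w1 : ∀ j, 1 < w j) (j : Fin N) : ∃ δ : ℝ, 0 < δ ∧ δ ≤ 1 ∧
    ∀ l, w l < w j → w j * δ ≤ w j - w l := by
  have hw : 0 < w j := zero_lt_one.trans (w1 j)
  set f : Fin N → ℝ := fun l => if w l < w j then (w j - w l) / w j else 1 with hf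
  have hne : (Finset.univ : Finset (Fin N)).Nonempty := ⟨j, Finset.mem_univ _⟩
  refine ⟨Finset.univ.inf' hne f, ?_, ?_, ?_⟩
  · rw [Finset.lt_inf'_iff]
    intro l _
    show 0 < (if w l < w j then (w j - w l) / w j else 1)
    split_ifs with h
    · exact div_pos (by linarith) hw
    · exact one_pos
  · have h1 := Finset.inf'_le f (Finset.mem_univ j)
    have h2 : f j = 1 := if_neg (lt_irrefl _)
    rwa [h2] at h1
  · intro l hl
    have h1 := Finset.inf'_le f (Finset.mem_univ l)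
    have h2 : f l = (w j - w l) / w j := if_pos hl
    rw [h2, le_div_iff₀ hw] at h1
    linarith

/-- polynomial functions along deeper lines -/
theorem polQ_deep {S : Sp} {c : CD S d N r} (hA : c.Ax w z ρ) {B : Fin r → S.L} (hb : ∀ i, c.b i ≤ B i)
    (ht : ∀ i, h (dg (c.q 0) 1) (B i) = 1) {κ : ℝ} (h0 : 0 ≤ κ) (h1 : κ ≤ 1) (hP : PolQ c.q c.b (c.q 0) κ) :
    PolQ c.q B (c.q 0) κ := by
  intro a ha hw
  refine hP a ha fun i => ?_
  have h2 : vd (Sum.elim (c.a i) (c.u i)) 1 = c.b i := by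
    rw [vd_sume, ← hA.ln.gen i]
  rw [← h2]
  apply Pool.Agent.Helper45.UC.wpol_vis h0 h1 (hw i)
  · rw [h2]
    exact hb i
  · exact ht i
  · rw [h2]
    exact (dg_mono _ h1).trans (ha.trans (hA.ln.P_le i))

/-- THE STEP -/
theorem step (hZFU : ST_ZFU) (hTYP : ST_TYP) (hOUTU : ST_OUTU) {C : ∀ S : Sp, CD S d N r → Prop} (hd : 1 ≤ d)
    (hC : Cls d N r w z ρ C) (hT : TRs w z C) {S : Sp} {c : CD S d N r} (hc : C S c) {A : Finset (Fin N)} {j : Fin N}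
    (hj : j ∉ A) (hA : ∀ j ∈ A, ∀ l, w l < w j → l ∈ A) (hlow : ∀ l, w l < w j → l ∈ A) {κ s₀ : ℝ}
    {H : HH S d N} {Jh : Fin N → MvPolynomial (Fin (d + 1)) (QS S)} (κ0 : 0 < κ) (κ1 : κ ≤ 1) (s0 : 0 < s₀)
    (hF : FU w c A κ s₀ H Jh c.b c.xi) :
    ∃ (S' : Sp) (c' : CD S' d N r) (κ' s' : ℝ) (H' : HH S' d N)
      (Jh' : Fin N → MvPolynomial (Fin (d + 1)) (QS S')), C S' c' ∧ 0 < κ' ∧ κ' ≤ 1 ∧ 0 < s' ∧
        FU w c' (insert j A) κ' s' H' Jh' c'.b c'.xi := by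
  have hAx := hC.ax S c hc
  have hwz : 0 < w z := zero_lt_one.trans (hAx.w1 z)
  obtain ⟨y, y0, hy1, hy2, hy3⟩ : ∃ y : ℝ, 0 < y ∧ y < s₀ ∧ 2 * w z * y < κ ∧ 2 * w z * y < 1 := by
    refine ⟨min (s₀ / 2) (κ / (4 * w z)), lt_min (by linarith) (by positivity), ?_, ?_, ?_⟩
    · exact (min_le_left _ _).trans_lt (by linarith)
    · calc 2 * w z * min (s₀ / 2) (κ / (4 * w z)) ≤ 2 * w z * (κ / (4 * w z)) :=
          mul_le_mul_of_nonneg_left (min_le_right _ _) (by positivity)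
        _ = κ / 2 := by field_simp; ring
        _ < κ := by linarith
    · calc 2 * w z * min (s₀ / 2) (κ / (4 * w z)) ≤ 2 * w z * (κ / (4 * w z)) :=
          mul_le_mul_of_nonneg_left (min_le_right _ _) (by positivity)
        _ = κ / 2 := by field_simp; ring
        _ < 1 := by linarith
  have hwy : 0 < w z * y := mul_pos hwz y0
  obtain ⟨e, he'⟩ : ∃ e, e = 1 - w z * y := ⟨_, rfl⟩
  have he : 0 < e := by rw [he']; linarith
  have h1 : e ≤ 1 := by rw [he']; linarith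
  have hye : w z * y + e ≤ 1 := by rw [he']; linarith
  obtain ⟨c', hz, hc'⟩ := hC.zoom S c hc y e he h1 y0.le hye (fun k => Setoid.ker (c.VK y k)) (fun _ => rfl)
  obtain ⟨κ', s', H', Jh', hκ', hκ1', hs', hzs, hF', hY⟩ := hZFU d N r w z ρ C hC S c hc A κ s₀ H Jh hA κ1 hF y e he h1
    y0 hy1 (by linarith) hye _ c' hz hc'
  have hA' := hC.ax _ c' hc'
  have hJk : ∀ l : Low w j, Jh' l.1 ∈ PK (vd c'.q 1) := fun l => hF'.Jk l.1 (hlow l.1 l.2)
  have hJw : ∀ l : Low w j, ∀ n, (Jh' l.1).coeff n ≠ 0 → n ≠ 0 ∧ w1 n < w l.1 := fun l => hF'.Jw l.1 (hlow l.1 l.2)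
  obtain ⟨hLB, J, hJ, hJw', hLR⟩ := Pool.Agent.Helper79.THA.st_LBR _ d N r c' w z ρ hA' H' hF'.tri Jh' j s' hs' hzs
    hJk hJw (fun l s h2 h3 => Pool.Agent.Helper46.THA.st_UNIQ _ d N r c' w z ρ hA' H' hF'.tri (Jh' l.1) s l.1 h2
      ((mul_le_mul_of_nonneg_left h3 hwz.le).trans_lt hzs) (hF'.unt l.1 (hlow l.1 l.2) s h2 h3))
  obtain ⟨D, hD⟩ : ∃ D, D = mkD hA' hF'.tri j Jh' hJk hJw J hJ hJw' := ⟨_, rfl⟩
  have hDq : D.q = c'.q := by rw [hD]; rfl
  have hDR : D.R = Rh w j c' H' := by rw [hD]; rfl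
  have hDz : D.z = c'.R j := by rw [hD]; rfl
  have hDwt : D.wt = wt d w j := by rw [hD]; rfl
  have hDw : D.w = w j := by rw [hD]; rfl
  have hDP : D.Pj = fun l => Jh' l.1 := by rw [hD]; rfl
  have hDJ : D.J = J := by rw [hD]; rfl
  have hDi : D.inf = c'.O := by rw [hD]; rfl
  have hLB' : ∀ s, 0 ≤ s → s ≤ s' → LB D.q D.R D.Pj D.wt (gH c' H' s) s := by
    intro s h2 h3
    rw [hDq, hDR, hDP, hDwt]
    exact hLB s h2 h3
  have hLR' : ∀ s, 0 ≤ s → s ≤ s' → LR D.q D.R D.Pj D.z D.J (gH c' H' s) (D.w * s) := by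
    intro s h2 h3
    rw [hDq, hDR, hDP, hDz, hDJ, hDw]
    exact hLR s h2 h3
  obtain ⟨r₁, hr0, hr1, hTy⟩ := hTYP d N r w z ρ C hC hT S c hc A κ s₀ H Jh j hlow κ1 hF y e he h1 y0 hy1 hy2 hy3 hye
    _ c' hz hc' κ' s' H' Jh' hκ' hκ1' hs' hzs hF' hY D hDq hDR hDz hDwt hDw hDP hLB' hLR'
  -- scales
  have hwj : 0 < w j := zero_lt_one.trans (hAx.w1 j)
  obtain ⟨δ, δ0, δ1, hδ⟩ := exists_delta w hAx.w1 j
  obtain ⟨s₁, hs₁⟩ : ∃ s₁, s₁ = min s' (r₁ / w j) := ⟨_, rfl⟩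
  have hs1 : 0 < s₁ := by rw [hs₁]; exact lt_min hs' (div_pos hr0 hwj)
  have hs1' : s₁ ≤ s' := by rw [hs₁]; exact min_le_left _ _
  have hs1r : D.w * s₁ ≤ r₁ := by
    rw [hDw, hs₁]
    calc w j * min s' (r₁ / w j) ≤ w j * (r₁ / w j) := mul_le_mul_of_nonneg_left (min_le_right _ _) hwj.le
      _ = r₁ := by field_simp
  have hs2 : 0 < δ * s₁ := mul_pos δ0 hs1
  have hs3 : 0 < δ * (δ * s₁) := mul_pos δ0 hs2
  have h21 : δ * s₁ ≤ s₁ := mul_le_of_le_one_left hs1.le δ1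
  have h32 : δ * (δ * s₁) ≤ δ * s₁ := mul_le_of_le_one_left hs2.le δ1
  have hdl : ∀ s, 0 ≤ s → ∀ l : Low w j, D.w * (δ * s) ≤ (D.w - D.wv l) * s := by
    intro s h2 l
    have e1 : D.wv l = w l.1 := by
      show D.wt (Sum.inr l) = _
      rw [hDwt]
      rfl
    rw [e1, hDw, ← mul_assoc]
    exact mul_le_mul_of_nonneg_right (hδ l.1 l.2) h2
  have hW : ∀ s, 0 < s → s ≤ s₁ → ∃ k : Walk D s, k.T ∧ k.RC := by
    intro s h2 h3
    refine Pool.Agent.Helper79.THA.walk_typ hAx hA' y0.le hye hz h2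
      ((mul_le_mul_of_nonneg_left (h3.trans hs1') hwz.le).trans_lt hzs) hF'.tri.real D hDq hDR hDz hDwt hDw hDi
      (hLB' s h2.le (h3.trans hs1')) (hLR' s h2.le (h3.trans hs1')) ?_ hTy
    exact (mul_le_mul_of_nonneg_left h3 (by rw [hDw]; exact hwj.le)).trans hs1r
  have hdeep := Pool.Agent.Helper92.THA.st_DEEP d N r w z ρ C hC S c hc y e he h1 y0.le hye _ c' hz hc'
  have hbx : ∀ i, chgL (fun k => Setoid.ker (c.VK y k)) e he (c.b i) ≤
      chgL (fun k => Setoid.ker (c.VK y k)) e he (c.xi i) := fun i => chgL_mono _ _ _ (CD.Ln.xi_b i)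
  have hPQ : PolQ c'.q (fun i => chgL (fun k => Setoid.ker (c.VK y k)) e he (c.b i)) (c'.q 0) (D.w * (δ * s₁)) := by
    have h2 : D.w * (δ * s₁) ≤ 1 :=
      ((mul_le_mul_of_nonneg_left h21 (by rw [hDw]; exact hwj.le)).trans hs1r).trans hr1
    have h3 : 0 < D.w * (δ * s₁) := mul_pos (by rw [hDw]; exact hwj) hs2
    refine polQ_deep hA' hz.b (fun i => ?_) h3.le h2
      (Pool.Agent.Helper81.THA.st_POLQ Pool.Agent.Helper45.THA.st_STARE d N r w z ρ C hd hC _ c' hc' _ h3 h2)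
    exact le_antisymm (h_dg_le_one _ _) ((hdeep i).1.ge.trans (h_anti (hbx i)))
  obtain ⟨κ2, H2, Jh2, hκ2, hκ21, hF2⟩ := next Pool.Agent.Helper80.THA.st_OUTF hOUTU hA' hbx hz.b hz.xi
    (fun i => (hdeep i).1) (fun i => (hdeep i).2.1) hκ' hκ1' hs' hzs hF' hj D hDq hDR hDz hDwt hDw hLB' hLR' hr0 hr1 hTy
    hs3 h32 h21 hs1' hs1r (hdl s₁ hs1.le) (hdl (δ * s₁) hs2.le) hW hPQ
  obtain ⟨κ3, hκ3, hκ32, hall⟩ := Pool.Agent.Helper79.THA.st_HLDj d N r w z ρ C hC S c hc y e he h1 y0.le hye _ c' hz hc'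
    κ2 hκ2 hκ21
  exact ⟨_, c', κ3, _, H2, Jh2, hc', hκ3, hκ32.trans hκ21, hs3, hF2.tri,
    fun i l hl => hall H2 hF2.tri l (fun i => hF2.flat i l hl) i, hF2.Jk, hF2.Jw, hF2.unt⟩

/-- all coordinates -/
theorem all_coord (hZFU : ST_ZFU) (hTYP : ST_TYP) (hOUTU : ST_OUTU) {C : ∀ S : Sp, CD S d N r → Prop} (hd : 1 ≤ d)
    (hC : Cls d N r w z ρ C) (hT : TRs w z C) {S : Sp} {c : CD S d N r} (hc : C S c) (n : ℕ) (hn : n ≤ N) :
    ∃ A : Finset (Fin N), A.card = n ∧ (∀ j ∈ A, ∀ l, w l < w j → l ∈ A) ∧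
      ∃ (S' : Sp) (c' : CD S' d N r) (κ' s' : ℝ) (H' : HH S' d N)
        (Jh' : Fin N → MvPolynomial (Fin (d + 1)) (QS S')), C S' c' ∧ 0 < κ' ∧ κ' ≤ 1 ∧ 0 < s' ∧
          FU w c' A κ' s' H' Jh' c'.b c'.xi := by
  classical
  induction n with
  | zero =>
    refine ⟨∅, rfl, fun j hj => absurd hj (Finset.notMem_empty j), S, c, 1, 1, fun _ => 0, fun _ => 0, hc, one_pos, le_rfl,
      one_pos, ⟨fun j => (PK _).zero_mem, fun j n hn => ?_⟩, ?_, ?_, ?_, ?_⟩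
    · exact absurd (MvPolynomial.coeff_zero n) hn
    · exact fun i j hj => absurd hj (Finset.notMem_empty j)
    · exact fun j hj => absurd hj (Finset.notMem_empty j)
    · exact fun j hj => absurd hj (Finset.notMem_empty j)
    · exact fun j hj => absurd hj (Finset.notMem_empty j)
  | succ n ih =>
    obtain ⟨A, hAc, hA, S1, c1, κ1, s1, H1, J1, hc1, h1, h2, h3, hF⟩ := ih (by omega)
    have hne : (Finset.univ \ A).Nonempty := by
      rw [Finset.sdiff_nonempty]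
      intro h
      have h4 := Finset.card_le_card h
      rw [Finset.card_univ, Fintype.card_fin] at h4
      omega
    obtain ⟨j, hj, hmin⟩ := Finset.exists_min_image _ w hne
    have hjA : j ∉ A := (Finset.mem_sdiff.mp hj).2
    have hlow : ∀ l, w l < w j → l ∈ A := by
      intro l hl
      by_contra h
      exact absurd (hmin l (Finset.mem_sdiff.mpr ⟨Finset.mem_univ _, h⟩)) (not_le.mpr hl)
    refine ⟨insert j A, by rw [Finset.card_insert_of_notMem hjA, hAc], ?_,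
      step hZFU hTYP hOUTU hd hC hT hc1 hjA hA hlow h1 h2 h3 hF⟩
    intro l hl l' hl'
    apply Finset.mem_insert_of_mem
    rcases Finset.mem_insert.mp hl with rfl | hl
    · exact hlow l' hl'
    · exact hA l hl l' hl'

/-- THEOREM A for corners -/
theorem tha (hZFU : ST_ZFU) (hTYP : ST_TYP) (hOUTU : ST_OUTU) : ST_THA := by
  rintro d N r w z ρ C hd hC hT ⟨S, c, hc⟩
  obtain ⟨A, hAc, _, S', c', κ, s, H, Jh, hc', h1, h2, _, hF⟩ := all_coord hZFU hTYP hOUTU hd hC hT hc N le_rfl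
  have hA : A = Finset.univ := Finset.eq_univ_of_card A (by rw [hAc, Fintype.card_fin])
  exact ⟨S', c', κ, hc', h1, h2, H, hF.tri, fun i j => hF.flat i j (by rw [hA]; exact Finset.mem_univ j)⟩

end

end Pool.Agent.Helper57.THA
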